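import Mathlib

/-! Greedy ball carving: colourings of a finite point set whose monochromatic pairs at a given
distance scale have few midpoints. -/

namespace Pool.Agent.MP_9da210_nt.H88

open MeasureTheory Metric Finset

noncomputable section

abbrev Es (d : ℕ) : Type := EuclideanSpace ℝ (Fin d)

variable {d : ℕ}

open Classical in
/-- the points of `A` within distance `t` of `c` -/
def nb (A : Finset (Es d)) (t : ℝ) (c : Es d) : Finset (Es d) := A.filter fun x => dist x c ≤ t

lemma mem_nb {A : Finset (Es d)} {t : ℝ} {c x : Es d} : x ∈ nb A t c ↔ x ∈ A ∧ dist x c ≤ t := by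
  simp [nb]

lemma nb_eq (A : Finset (Es d)) (t : ℝ) : (fun c => ((nb A t c).card : ℝ)) =
    fun c => ∑ x ∈ A, (closedBall x t).indicator (1 : Es d → ℝ) c := by
  classical
  ext c
  simp only [nb, Set.indicator_apply, mem_closedBall', Pi.one_apply, sum_boole]

lemma int_ind (x : Es d) (t : ℝ) : Integrable ((closedBall x t).indicator (1 : Es d → ℝ)) :=
  (integrable_indicator_iff measurableSet_closedBall).2
    (integrableOn_const measure_closedBall_lt_top.ne)

lemma int_nb (A : Finset (Es d)) (t : ℝ) : Integrable fun c => ((nb A t c).card : ℝ) := by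
  rw [nb_eq]
  exact integrable_finsetSum _ fun x _ => int_ind x t

lemma integral_nb (A : Finset (Es d)) {t : ℝ} (ht : 0 ≤ t) : ∫ c, ((nb A t c).card : ℝ) =
    A.card * t ^ d * volume.real (closedBall (0 : Es d) 1) := by
  rw [nb_eq, integral_finsetSum _ fun x _ => int_ind x t]
  simp [integral_indicator_one measurableSet_closedBall,
    Measure.addHaar_real_closedBall' volume _ ht, mul_assoc]

lemma centre (A P : Finset (Es d)) {a b R κ μ : ℝ} (ha : 0 ≤ a) (hb : 0 ≤ b) (hR : 0 ≤ R)
    (h : κ * (A.card * R ^ d) + μ * (P.card * a ^ d) < A.card * b ^ d) :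
    ∃ c, κ * (nb A R c).card + μ * (nb P a c).card < (nb A b c).card := by
  by_contra hc
  push Not at hc
  have h1 := integral_mono (int_nb A b)
    (((int_nb A R).const_mul κ).add ((int_nb P a).const_mul μ)) hc
  have h2 : 0 < volume.real (closedBall (0 : Es d) 1) := ENNReal.toReal_pos
    (measure_closedBall_pos _ _ one_pos).ne' measure_closedBall_lt_top.ne
  simp only [Pi.add_apply] at h1
  rw [integral_add ((int_nb A R).const_mul κ) ((int_nb P a).const_mul μ), integral_const_mul,
    integral_const_mul, integral_nb _ hb, integral_nb _ hR, integral_nb _ ha] at h1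
  nlinarith

/-- pairs of `W` at distance scale `r` have their midpoint in `M` if it lies in `P` -/
def Hd (P : Finset (Es d)) (r : ℝ) (M : Finset (Es d)) (x y : Es d) : Prop :=
  r / 2 ≤ dist x y → dist x y ≤ r → midpoint ℝ x y ∈ P → midpoint ℝ x y ∈ M

lemma Hd.mono {P M M' : Finset (Es d)} {r : ℝ} {x y : Es d} (h : Hd P r M x y) (hM : M ⊆ M') :
    Hd P r M' x y := fun a b c => hM (h a b c)

section
variable (P : Finset (Es d)) {r a b K τ : ℝ} (hr : 0 < r) (ha : 0 ≤ a) (hb : 0 < b)
  (hab : b ^ 2 - r ^ 2 / 16 ≤ a ^ 2) (hK : (b + r) ^ d ≤ K * b ^ d) (hτ : a ^ d ≤ τ * b ^ d)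
  (hτ0 : 0 < τ) (hP : P.Nonempty)
include hr ha hb hab hK hτ hτ0 hP

lemma one_class {u : ℝ} (hu : 0 < u) (A : Finset (Es d)) : ∃ W ⊆ A, ∃ M : Finset (Es d),
    A.card - u / 2 ≤ 2 * K * W.card ∧ u * M.card ≤ 4 * τ * P.card * W.card ∧
      ∀ x ∈ W, ∀ y ∈ W, Hd P r M x y := by
  classical
  have hbd : 0 < b ^ d := by positivity
  have hK0 : 0 < K := (mul_pos_iff_of_pos_right hbd).1 (lt_of_lt_of_le (by positivity) hK)
  have hp : (0 : ℝ) < P.card := by exact_mod_cast hP.card_pos
  induction A using Finset.strongInduction with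
  | H A ih =>
    by_cases hA : (A.card : ℝ) ≤ u / 2
    · exact ⟨∅, empty_subset _, ∅, by simpa using hA, by simp, by simp⟩
    obtain ⟨c, hc⟩ := centre A P (κ := 1 / (2 * K)) (μ := u / (4 * τ * P.card)) ha hb.le
      (by positivity : 0 ≤ b + r) (by
        have h1 : 1 / (2 * K) * (A.card * (b + r) ^ d) ≤ A.card * b ^ d / 2 := by
          calc _ ≤ 1 / (2 * K) * (A.card * (K * b ^ d)) := by gcongr
            _ = _ := by field_simp
        have h2 : u / (4 * τ * P.card) * (P.card * a ^ d) ≤ u / 2 * b ^ d / 2 := by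
          calc _ ≤ u / (4 * τ * P.card) * (P.card * (τ * b ^ d)) := by gcongr
            _ = _ := by field_simp; norm_num
        nlinarith)
    have c1 : 1 / (2 * K) * (nb A (b + r) c).card ≤ (nb A b c).card :=
      (le_add_of_nonneg_right (by positivity)).trans hc.le
    have c2 : u / (4 * τ * P.card) * (nb P a c).card ≤ (nb A b c).card :=
      (le_add_of_nonneg_left (by positivity)).trans hc.le
    obtain ⟨z, hz⟩ : (nb A b c).Nonempty :=
      card_pos.1 (Nat.cast_pos.1 (lt_of_le_of_lt (by positivity) hc))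
    have hsub : nb A (b + r) c ⊆ A := fun x hx => (mem_nb.1 hx).1
    obtain ⟨W, hW, M, h1, h2, h3⟩ := ih (A \ nb A (b + r) c) (sdiff_ssubset hsub
      ⟨z, mem_nb.2 ⟨(mem_nb.1 hz).1, by linarith [(mem_nb.1 hz).2]⟩⟩)
    have far : ∀ x ∈ W, ∀ y ∈ nb A b c, r < dist x y := fun x hx y hy => by
      have := mem_sdiff.1 (hW hx)
      have h := not_le.1 fun e => this.2 (mem_nb.2 ⟨this.1, e⟩)
      linarith [dist_triangle x y c, (mem_nb.1 hy).2]
    have hd : Disjoint W (nb A b c) := disjoint_left.2 fun x hx hy => by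
      have := far x hx x hy
      rw [dist_self] at this
      linarith
    rw [div_mul_eq_mul_div, div_le_iff₀ (by positivity)] at c1 c2
    refine ⟨W ∪ nb A b c, union_subset (hW.trans sdiff_subset) fun x hx => (mem_nb.1 hx).1,
      M ∪ nb P a c, ?_, ?_, fun x hx y hy => ?_⟩
    · rw [cast_card_sdiff hsub] at h1
      rw [card_union_of_disjoint hd]
      push_cast
      linarith
    · have : ((M ∪ nb P a c).card : ℝ) ≤ M.card + (nb P a c).card := by
        exact_mod_cast card_union_le _ _
      rw [card_union_of_disjoint hd]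
      push_cast
      nlinarith
    · rcases mem_union.1 hx with hx | hx <;> rcases mem_union.1 hy with hy | hy
      · exact (h3 x hx y hy).mono subset_union_left
      · exact fun _ e => absurd e (not_le.2 (far x hx y hy))
      · exact fun _ e => absurd e (not_le.2 (dist_comm x y ▸ far y hy x hx))
      · refine fun e1 _ e3 => mem_union_right _ (mem_nb.2 ⟨e3, ?_⟩)
        have := EuclideanGeometry.dist_sq_add_dist_sq_eq_two_mul_dist_midpoint_sq_add_half_dist_sq
          c x y
        have hx := pow_le_pow_left₀ dist_nonneg (mem_nb.1 hx).2 2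
        have hy := pow_le_pow_left₀ dist_nonneg (mem_nb.1 hy).2 2
        have e := pow_le_pow_left₀ (by positivity) e1 2
        rw [dist_comm c, dist_comm c, dist_comm c] at this
        exact (pow_le_pow_iff_left₀ dist_nonneg ha two_ne_zero).1 (by nlinarith)

lemma one_scale (U : Finset (Es d)) : ∃ (Q : ℕ) (f : Es d → ℕ) (M : Finset (Es d)),
    (∀ x ∈ U, f x < Q) ∧ Q ≤ 8 * K * Real.log (U.card + 1) ∧
      M.card ≤ 8 * τ * P.card * Real.log (U.card + 1) ∧
      ∀ x ∈ U, ∀ y ∈ U, f x = f y → Hd P r M x y := by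
  classical
  have hK0 : 0 < K :=
    (mul_pos_iff_of_pos_right (by positivity)).1 (lt_of_lt_of_le (by positivity) hK)
  induction U using Finset.strongInduction with
  | H U ih =>
    rcases U.eq_empty_or_nonempty with rfl | hU
    · exact ⟨0, 0, ∅, by simp, by simp, by simp, by simp⟩
    have hn : (1 : ℝ) ≤ U.card := by exact_mod_cast hU.card_pos
    obtain ⟨W, hW, M, h1, h2, h3⟩ :=
      one_class P hr ha hb hab hK hτ hτ0 hP (zero_lt_one.trans_le hn) U
    have hw : (0 : ℝ) < W.card :=
      (mul_pos_iff_of_pos_left (by positivity : 0 < 2 * K)).1 (by linarith)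
    obtain ⟨Q, f, M', g1, g2, g3, g4⟩ :=
      ih (U \ W) (sdiff_ssubset hW (card_pos.1 (by exact_mod_cast hw)))
    rw [cast_card_sdiff hW] at g2 g3
    have hwn : (W.card : ℝ) ≤ U.card := by exact_mod_cast card_le_card hW
    have hl : W.card ≤ 2 * U.card *
        (Real.log (U.card + 1) - Real.log (U.card - W.card + 1)) := by
      have := Real.log_le_sub_one_of_pos
        (show (0 : ℝ) < (U.card - W.card + 1) / (U.card + 1) from div_pos (by linarith) (by linarith))
      rw [Real.log_div (by linarith) (by linarith), div_sub_one (by linarith),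
        le_div_iff₀ (by linarith)] at this
      nlinarith
    refine ⟨Q + 1, fun x => if x ∈ W then Q else f x, M' ∪ M, fun x hx => ?_, ?_, ?_,
      fun x hx y hy e => ?_⟩
    · dsimp only
      split_ifs with h
      · omega
      · exact (g1 x (mem_sdiff.2 ⟨hx, h⟩)).trans Q.lt_succ_self
    · push_cast
      have : 1 ≤ 8 * K * (Real.log (U.card + 1) - Real.log (U.card - W.card + 1)) :=
        le_of_mul_le_mul_left (by nlinarith) (zero_lt_one.trans_le hn)
      linarith
    · have e1 : ((M' ∪ M).card : ℝ) ≤ M'.card + M.card := by exact_mod_cast card_union_le _ _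
      have e2 := mul_le_mul_of_nonneg_left hl (by positivity : 0 ≤ 4 * τ * P.card)
      have : M.card ≤ 8 * τ * P.card *
          (Real.log (U.card + 1) - Real.log (U.card - W.card + 1)) :=
        le_of_mul_le_mul_left (by nlinarith) (zero_lt_one.trans_le hn)
      linarith
    · dsimp only at e
      split_ifs at e with a1 a2 a2
      · exact (h3 x a1 y a2).mono subset_union_right
      · exact absurd (g1 y (mem_sdiff.2 ⟨hy, a2⟩)) (by omega)
      · exact absurd (g1 x (mem_sdiff.2 ⟨hx, a1⟩)) (by omega)
      · exact (g4 x (mem_sdiff.2 ⟨hx, a1⟩) y (mem_sdiff.2 ⟨hy, a2⟩) e).mono subset_union_left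

end

end

end Pool.Agent.MP_9da210_nt.H88
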