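import Pool.Agent.MP_9da210_nt.H88.Carve

/-! The colouring of the integers through base `q` digits. -/

namespace Pool.Agent.MP_9da210_nt.H88

open Finset

noncomputable section

/-- the sums of two distinct elements of `[1, N]` of the same colour -/
def Sums {γ : Type} (N : ℕ) (c : ℕ → γ) : Set ℕ :=
  {s : ℕ | ∃ a b : ℕ, 1 ≤ a ∧ a ≤ N ∧ 1 ≤ b ∧ b ≤ N ∧ a ≠ b ∧ c a = c b ∧ a + b = s}

/-- a digit vector as a point -/
def pt {d q : ℕ} (D : Fin d → Fin q) : Es d := WithLp.toLp 2 fun i => ((D i : ℕ) : ℝ)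

lemma core (d q s N Q : ℕ) {γ : ℝ} (hγ : 0 < γ) (hq : 0 < q) (hN : N < q ^ d) (hs : q * d < 2 ^ s)
    (hQ : 8 * Real.exp (γ * d) * Real.log (q ^ d + 1) ≤ Q) :
    ∃ c : ℕ → (Fin d → Fin 2) × (Fin s → Fin Q), ((Sums N c).ncard : ℝ) ≤
      s * (8 * Real.exp (-(γ ^ 2 / 32) * d) * q ^ d * Real.log (q ^ d + 1)) := by
  classical
  have : Nonempty (Fin q) := ⟨⟨0, hq⟩⟩
  set P : Finset (Es d) := univ.image (pt (q := q)) with hP
  have hPc : (P.card : ℝ) ≤ q ^ d := by
    have : P.card ≤ q ^ d := card_image_le.trans (by simp)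
    exact_mod_cast this
  have hlog : Real.log (P.card + 1) ≤ Real.log (q ^ d + 1) := by gcongr
  have hl0 : 0 ≤ Real.log (P.card + 1) := Real.log_nonneg (by simp)
  have key := fun j : ℕ => one_scale P (r := 2 ^ (j + 1)) (b := 2 ^ (j + 1) / γ)
    (a := Real.exp (-(γ ^ 2 / 32)) * (2 ^ (j + 1) / γ)) (K := Real.exp (γ * d))
    (τ := Real.exp (-(γ ^ 2 / 32) * d)) (by positivity) (by positivity) (by positivity) (by
      have h1 := Real.add_one_le_exp (-(γ ^ 2 / 32) + -(γ ^ 2 / 32))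
      rw [Real.exp_add, ← sq] at h1
      rw [mul_pow]
      refine le_trans (le_of_eq ?_) (mul_le_mul_of_nonneg_right h1 (by positivity))
      field_simp
      ring) (by
      rw [show (2 : ℝ) ^ (j + 1) / γ + 2 ^ (j + 1) = (γ + 1) * (2 ^ (j + 1) / γ) by
        field_simp; ring, mul_pow, mul_comm γ, Real.exp_nat_mul]
      gcongr
      exact Real.add_one_le_exp γ) (by rw [mul_pow, mul_comm _ (d : ℝ), Real.exp_nat_mul])
    (by positivity) (univ_nonempty.image _) P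
  choose Qj f M h1 h2 h3 h4 using key
  have hD : ∀ a : ℕ, ∃ D : Fin d → Fin q, a ≤ N → a = ∑ i, (D i : ℕ) * q ^ (i : ℕ) := fun a => by
    by_cases h : a < q ^ d
    · exact ⟨finFunctionFinEquiv.symm ⟨a, h⟩, fun _ => by
        rw [← finFunctionFinEquiv_apply, Equiv.apply_symm_apply]⟩
    · exact ⟨Classical.arbitrary _, fun e => by omega⟩
  choose D hD using hD
  have hmem : ∀ D : Fin d → Fin q, pt D ∈ P := fun D => mem_image_of_mem _ (mem_univ D)
  have hf : ∀ j a, f j (pt (D a)) < Q := fun j a => (h1 j _ (hmem _)).trans_le (by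
    have : (Qj j : ℝ) ≤ Q := (h2 j).trans (le_trans (by gcongr) hQ)
    exact_mod_cast this)
  refine ⟨fun a => (fun i => ⟨D a i % 2, Nat.mod_lt _ two_pos⟩, fun j => ⟨_, hf j a⟩), ?_⟩
  let g : Es d → ℕ := fun x => ⌊2 * ∑ i, x i * (q : ℝ) ^ (i : ℕ)⌋₊
  refine le_trans (Nat.cast_le.2 (Set.ncard_le_ncard (t := ↑(((range s).biUnion M).image g)) ?_
    (finite_toSet _))) ?_
  · rintro _ ⟨a, b, -, ha, -, hb, hab, hc, rfl⟩
    simp only [Prod.mk.injEq, funext_iff, Fin.mk.injEq] at hc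
    obtain ⟨i, hi⟩ : ∃ i, D a i ≠ D b i := by
      by_contra hne
      push Not at hne
      exact hab (by rw [hD a ha, hD b hb]; simp [hne])
    have d1 : 1 ≤ dist (pt (D a)) (pt (D b)) := by
      refine le_trans ?_ (PiLp.dist_apply_le _ _ i)
      have : (1 : ℤ) ≤ |((D a i : ℕ) : ℤ) - (D b i : ℕ)| :=
        Int.one_le_abs (sub_ne_zero.2 fun e => hi (Fin.ext (by exact_mod_cast e)))
      simp only [pt, Real.dist_eq]
      exact_mod_cast this
    have d2 : dist (pt (D a)) (pt (D b)) ≤ q * d := by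
      refine (pow_le_pow_iff_left₀ dist_nonneg (by positivity) two_ne_zero).1 ?_
      rw [EuclideanSpace.dist_sq_eq]
      refine (sum_le_card_nsmul _ _ ((q : ℝ) ^ 2) fun k _ => ?_).trans ?_
      · have e1 : ((D a k : ℕ) : ℝ) ≤ q := by exact_mod_cast (D a k).2.le
        have e2 : ((D b k : ℕ) : ℝ) ≤ q := by exact_mod_cast (D b k).2.le
        simp only [pt, Real.dist_eq, sq_abs]
        exact sq_le_sq' (by linarith [(D a k : ℕ).cast_nonneg (α := ℝ)])
          (by linarith [(D b k : ℕ).cast_nonneg (α := ℝ)])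
      · have : (d : ℝ) ≤ d ^ 2 := by exact_mod_cast Nat.le_self_pow two_ne_zero d
        rw [card_univ, Fintype.card_fin, nsmul_eq_mul, mul_pow, mul_comm]
        gcongr
    obtain ⟨j, j1, j2⟩ := exists_nat_pow_near d1 one_lt_two
    have hj : j < s := (pow_lt_pow_iff_right₀ (one_lt_two (α := ℝ))).1
      ((j1.trans d2).trans_lt (by exact_mod_cast hs))
    let E : Fin d → Fin q := fun k => ⟨(D a k + D b k) / 2, by
      have := (D a k).2; have := (D b k).2; omega⟩
    have hE : ∀ k, (2 : ℝ) * (E k : ℕ) = (D a k : ℕ) + (D b k : ℕ) := fun k => by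
      have := hc.1 k
      have : 2 * ((D a k + D b k : ℕ) / 2) = D a k + D b k := by omega
      exact_mod_cast this
    have hm : midpoint ℝ (pt (D a)) (pt (D b)) = pt E := by
      rw [midpoint_eq_smul_add]
      ext k
      simp only [pt, PiLp.smul_apply, PiLp.add_apply, smul_eq_mul, ← hE k]
      simp
    have := h4 j _ (hmem _) _ (hmem _) (hc.2 ⟨j, hj⟩) (by rw [pow_succ]; linarith) j2.le
      (hm ▸ hmem E)
    refine mem_coe.2 (mem_image.2 ⟨_, mem_biUnion.2 ⟨j, mem_range.2 hj, this⟩, ?_⟩)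
    rw [hm, ← Nat.floor_natCast (R := ℝ) (a + b)]
    refine congrArg Nat.floor ?_
    rw [hD a ha, hD b hb, mul_sum]
    push_cast
    rw [← sum_add_distrib]
    exact sum_congr rfl fun k _ => by rw [← add_mul, ← hE, mul_assoc]; rfl
  · rw [Set.ncard_coe_finset]
    have : (((range s).biUnion M).image g).card ≤ ∑ j ∈ range s, (M j).card :=
      card_image_le.trans card_biUnion_le
    refine (Nat.cast_le.2 this).trans ?_
    rw [Nat.cast_sum, ← nsmul_eq_mul]
    refine (sum_le_card_nsmul _ _ _ fun j _ => (h3 j).trans ?_).trans_eq (by rw [card_range])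
    gcongr

lemma exact_parts {γ : Type} [Fintype γ] {N k : ℕ} (c : ℕ → γ) (h1 : Fintype.card γ ≤ k)
    (h2 : k ≤ N) : ∃ c' : ℕ → Fin k, (∀ i, ∃ a, 1 ≤ a ∧ a ≤ N ∧ c' a = i) ∧
      Sums N c' ⊆ Sums N c := by
  classical
  have hk : 0 < k := (Fintype.card_pos_iff.2 ⟨c 0⟩).trans_le h1
  let ρ := Function.invFunOn c (Icc 1 N : Finset ℕ)
  have hρ : ∀ a ∈ Icc 1 N, ρ (c a) ∈ Icc 1 N ∧ c (ρ (c a)) = c a := fun a ha =>
    Function.invFunOn_pos ⟨a, ha, rfl⟩
  obtain ⟨T, t1, t2, t3⟩ := exists_subsuperset_card_eq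
    (s := ((Icc 1 N).image c).image ρ) (t := Icc 1 N) (n := k) (fun x hx => by
      simp only [mem_image, exists_exists_and_eq_and] at hx
      obtain ⟨a, ha, rfl⟩ := hx
      exact (hρ a ha).1) (card_image_le.trans ((card_le_univ _).trans h1)) (by simpa using h2)
  let e : T ≃ Fin k := T.equivFinOfCardEq t3
  let g : ℕ → ℕ := fun a => if a ∈ T then a else ρ (c a)
  have hg : ∀ a ∈ Icc 1 N, g a ∈ T ∧ c (g a) = c a := fun a ha => by
    simp only [g]
    split_ifs with h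
    · exact ⟨h, rfl⟩
    · exact ⟨t1 (mem_image_of_mem _ (mem_image_of_mem _ ha)), (hρ a ha).2⟩
  refine ⟨fun a => if h : g a ∈ T then e ⟨g a, h⟩ else ⟨0, hk⟩, fun i => ?_, ?_⟩
  · have := mem_Icc.1 (t2 (e.symm i).2)
    exact ⟨e.symm i, this.1, this.2, by simp [g]⟩
  · rintro _ ⟨a, b, a1, a2, b1, b2, hab, hc, rfl⟩
    have ha := hg a (mem_Icc.2 ⟨a1, a2⟩)
    have hb := hg b (mem_Icc.2 ⟨b1, b2⟩)
    simp only [dif_pos ha.1, dif_pos hb.1, e.apply_eq_iff_eq, Subtype.mk.injEq] at hc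
    exact ⟨a, b, a1, a2, b1, b2, hab, by rw [← ha.2, hc, hb.2], rfl⟩

end

end Pool.Agent.MP_9da210_nt.H88
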