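import Pool.Agent.MP_9da210_nt.H88.Grid

/-! Choice of the parameters. -/

namespace Pool.Agent.MP_9da210_nt.H88

open Real

lemma param {N k : ℕ} {y z : ℝ} (hz : 7 ≤ z) (hy : z ^ 4 ≤ y) (hN : (N : ℝ) = exp (y ^ 3))
    (hL : y ^ 3 = exp (z ^ 3)) (hk : exp (240 * (y ^ 2 * z)) ≤ k) (hkN : k ≤ N) :
    ∃ c : ℕ → Fin k, (∀ i, ∃ a, 1 ≤ a ∧ a ≤ N ∧ c a = i) ∧
      ((Sums N c).ncard : ℝ) ≤ N / y ^ 3 := by
  have z0 : 0 < z := by linarith
  have z3 : 343 ≤ z ^ 3 := le_trans (by norm_num) (pow_le_pow_left₀ (by norm_num) hz 3)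
  have hw : z ^ 3 ≤ y / z := by rw [le_div_iff₀ z0]; linarith [pow_succ z 3]
  have yz : 343 * z ≤ y := by nlinarith [pow_succ z 3]
  have y1 : 1 ≤ y := by linarith
  have y0 : 0 < y := by linarith
  have y3 : y ≤ y ^ 3 := le_self_pow₀ y1 (by norm_num)
  have e1 : 1 ≤ y ^ 2 * z := one_le_mul_of_one_le_of_one_le (one_le_pow₀ y1) (by linarith)
  obtain ⟨d, d1, d2⟩ : ∃ d : ℕ, y ^ 2 * z ≤ d ∧ d ≤ 2 * (y ^ 2 * z) :=
    ⟨_, Nat.le_ceil _, (Nat.ceil_lt_add_one (by positivity)).le.trans (by linarith)⟩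
  have d0 : (0 : ℝ) < d := by linarith
  have d3 : d ≤ y ^ 3 := by nlinarith [pow_succ y 2, sq_nonneg y]
  obtain ⟨x, hx⟩ : ∃ x, x = exp (y ^ 3 / d) := ⟨_, rfl⟩
  have xd : x ^ d = N := by rw [hx, ← exp_nat_mul, hN, mul_div_cancel₀ _ d0.ne']
  have x1 : 1 ≤ x := hx ▸ one_le_exp (by positivity)
  have x2 : x ≤ exp (y / z) := by
    rw [hx, exp_le_exp, div_le_div_iff₀ d0 z0]
    nlinarith [pow_succ y 2]
  have x3 : d ≤ z ^ 3 * x := by
    have h1 : y / (2 * z) ≤ y ^ 3 / d := by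
      rw [div_le_div_iff₀ (by positivity) d0]
      nlinarith [pow_succ y 2]
    have h2 := (pow_div_factorial_le_exp _ (by positivity : 0 ≤ y / (2 * z)) 3).trans
      (exp_le_exp.2 h1)
    rw [← hx] at h2
    refine le_trans ?_ (mul_le_mul_of_nonneg_left h2 (by positivity))
    have : z ^ 3 * ((y / (2 * z)) ^ 3 / (Nat.factorial 3 : ℕ)) = y ^ 2 * (y / 48) := by
      simp only [Nat.factorial]
      field_simp
      norm_num
    rw [this]
    nlinarith [sq_nonneg y]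
  obtain ⟨q, q1, q2⟩ : ∃ q : ℕ, x < q ∧ q ≤ x + 1 :=
    ⟨⌊x⌋₊ + 1, by push_cast; exact Nat.lt_floor_add_one x, by
      push_cast; linarith [Nat.floor_le (zero_le_one.trans x1)]⟩
  have q0 : 0 < q := by exact_mod_cast (zero_lt_one.trans_le x1).trans q1
  have hNq : N < q ^ d := by
    have : x ^ d < (q : ℝ) ^ d := pow_lt_pow_left₀ q1 (by linarith) (by exact_mod_cast d0.ne')
    rw [xd] at this
    exact_mod_cast this
  have N0 : (0 : ℝ) < N := hN ▸ exp_pos _
  have qd : (q : ℝ) ^ d ≤ N * y ^ 3 := by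
    calc (q : ℝ) ^ d ≤ (x * exp (1 / x)) ^ d := by
          gcongr
          have := mul_le_mul_of_nonneg_left (add_one_le_exp (1 / x)) (zero_le_one.trans x1)
          rw [mul_add, mul_one_div_cancel (by linarith)] at this
          linarith
      _ ≤ _ := by
          rw [mul_pow, xd, ← exp_nat_mul, hL]
          gcongr
          rwa [mul_one_div, div_le_iff₀ (by linarith)]
  have hlog : log (q ^ d + 1) ≤ 3 * y ^ 3 := by
    have h1 : y ^ 3 + 1 ≤ N := hN ▸ add_one_le_exp _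
    rw [log_le_iff_le_exp (by positivity), show (3 : ℝ) = (3 : ℕ) by norm_num, exp_nat_mul, ← hN]
    nlinarith [mul_pos N0 N0, pow_succ (N : ℝ) 2]
  obtain ⟨s, s1, s2⟩ : ∃ s : ℕ, 6 * (y / z) ≤ s ∧ s ≤ 7 * (y / z) :=
    ⟨_, Nat.le_ceil _, (Nat.ceil_lt_add_one (by positivity)).le.trans (by linarith)⟩
  have hs : q * d < 2 ^ s := by
    have : (q : ℝ) * d < 2 ^ s := by
      calc (q : ℝ) * d ≤ 2 * exp (y / z) * exp (z ^ 3) := by rw [← hL]; gcongr; linarith
        _ < exp 1 * exp (y / z) * exp (z ^ 3) := by gcongr; linarith [exp_one_gt_d9]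
        _ ≤ exp (s * log 2) := by
          rw [← exp_add, ← exp_add, exp_le_exp]
          nlinarith [log_two_gt_d9]
        _ = _ := by rw [exp_nat_mul, exp_log two_pos]
    exact_mod_cast this
  have g1 : 16 * z / y * d ≤ 32 * (y * z ^ 2) := by
    rw [div_mul_eq_mul_div, div_le_iff₀ y0]
    nlinarith
  have g2 : -((16 * z / y) ^ 2 / 32) * d ≤ -(8 * z ^ 3) := by
    have : (16 * z / y) ^ 2 / 32 * (y ^ 2 * z) = 8 * z ^ 3 := by field_simp; norm_num
    rw [neg_mul, neg_le_neg_iff, ← this]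
    gcongr
  obtain ⟨c, hc⟩ := core d q s N _ (γ := 16 * z / y) (by positivity) q0 hNq hs (Nat.le_ceil _)
  have l0 : 0 ≤ log ((q : ℝ) ^ d + 1) := log_nonneg (le_add_of_nonneg_left (by positivity))
  obtain ⟨c', h1, h2⟩ := exact_parts c (k := k) (by
    have hQ : (⌈8 * exp (16 * z / y * d) * log (q ^ d + 1)⌉₊ : ℝ) ≤ exp (34 * (y * z ^ 2)) := by
      refine (Nat.ceil_lt_add_one (by positivity)).le.trans ?_
      have a1 : 1 ≤ exp (32 * (y * z ^ 2)) * y ^ 3 :=
        one_le_mul_of_one_le_of_one_le (one_le_exp (by positivity)) (by linarith)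
      have a2 : (25 : ℝ) ≤ exp (y * z ^ 2) := le_trans (by nlinarith) (add_one_le_exp _)
      have a3 : y ^ 3 ≤ exp (y * z ^ 2) := by
        rw [hL, exp_le_exp]
        nlinarith [pow_succ z 2, sq_nonneg z]
      calc _ ≤ 8 * exp (32 * (y * z ^ 2)) * (3 * y ^ 3) + exp (32 * (y * z ^ 2)) * y ^ 3 := by
            gcongr
        _ = exp (32 * (y * z ^ 2)) * 25 * y ^ 3 := by ring
        _ ≤ exp (32 * (y * z ^ 2)) * exp (y * z ^ 2) * exp (y * z ^ 2) := by gcongr
        _ = _ := by rw [← exp_add, ← exp_add]; ring_nf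
    rw [← Nat.cast_le (α := ℝ)]
    simp only [Fintype.card_prod, Fintype.card_pi, Fintype.card_fin, Finset.prod_const,
      Finset.card_univ]
    push_cast
    refine le_trans ?_ hk
    calc _ ≤ exp 1 ^ d * exp (34 * (y * z ^ 2)) ^ s := by gcongr; linarith [exp_one_gt_d9]
      _ ≤ _ := by
        rw [← exp_nat_mul, ← exp_nat_mul, ← exp_add, exp_le_exp]
        have : 7 * (y / z) * (34 * (y * z ^ 2)) = 238 * (y ^ 2 * z) := by field_simp; norm_num
        nlinarith [mul_le_mul_of_nonneg_right s2 (by positivity : 0 ≤ 34 * (y * z ^ 2))]) hkN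
  refine ⟨c', h1, le_trans (Nat.cast_le.2
    (Set.ncard_le_ncard h2 ((Set.finite_Iic (2 * N)).subset ?_))) (hc.trans ?_)⟩
  · rintro _ ⟨a, b, -, ha, -, hb, -, -, rfl⟩
    exact (by omega : a + b ≤ 2 * N)
  · have s3 : s ≤ y ^ 3 := s2.trans (le_trans (by
      rw [← mul_div_assoc, div_le_iff₀ z0]; nlinarith) y3)
    have a1 : exp (-(8 * z ^ 3)) = 1 / (y ^ 3) ^ 8 := by
      rw [hL, ← exp_nat_mul, one_div, exp_neg]
      norm_num
    have L1 : 24 ≤ y ^ 3 := by linarith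
    generalize y ^ 3 = L at a1 s3 qd hlog L1
    calc _ ≤ L * (8 * exp (-(8 * z ^ 3)) * (N * L) * (3 * L)) := by gcongr
      _ = N / L * (24 / L ^ 4) := by rw [a1]; field_simp; norm_num
      _ ≤ N / L * 1 := by
        gcongr
        rw [div_le_one (by positivity)]
        exact L1.trans (le_self_pow₀ (by linarith) (by norm_num))
      _ = _ := mul_one _

end Pool.Agent.MP_9da210_nt.H88
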